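import Pool.Agent.K1H90.ST.Thr

/-! # `S_ETA` (piece of the proof of frozen statement S09154) -/

set_option autoImplicit false

noncomputable section

namespace Pool.Agent.K1H90.ST

open Pool.Agent.K1H64.ST Pool.Agent.K1H85.ST
open Finset hiding box

variable {n : ℕ} {A : Finset (Cube n)}

/-- `max_a (a·x - c_a)`. -/
def MX (P : Pot n A) (x : Fin n → ℤ) : ℝ := (dot (P.T x) x : ℝ) - P.c (P.T x)

theorem MX_ge (P : Pot n A) (x : Fin n → ℤ) {a : Cube n} (ha : a ∈ A) :
    (dot a x : ℝ) - P.c a ≤ MX P x := by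
  by_cases h : a = P.T x
  · subst h; exact le_rfl
  · exact (P.best x a ha h).le

theorem MX_diff (P : Pot n A) (x : Fin n → ℤ) (i : Fin n) (s t : ℤ) :
    (sn (P.T (Function.update x i s) i) * (t - s) : ℝ) ≤
      MX P (Function.update x i t) - MX P (Function.update x i s) := by
  have h := MX_ge P (Function.update x i t) (P.mem (Function.update x i s))
  have e : Function.update x i t = Function.update (Function.update x i s) i t := by
    rw [Function.update_idem]
  have h2 : dot (P.T (Function.update x i s)) (Function.update x i t) =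
      dot (P.T (Function.update x i s)) (Function.update x i s) +
        sn (P.T (Function.update x i s) i) * (t - s) := by
    conv_lhs => rw [e, dot_update]
    rw [Function.update_self]
  rw [h2] at h
  push_cast at h
  have h3 : MX P (Function.update x i s) = (dot (P.T (Function.update x i s))
    (Function.update x i s) : ℝ) - P.c (P.T (Function.update x i s)) := rfl
  rw [h3]
  linarith

theorem sn_abs (b : Bool) : |(sn b : ℝ)| = 1 := by cases b <;> simp [sn]

theorem MX_lip (P : Pot n A) (x : Fin n → ℤ) (i : Fin n) (s t : ℤ) :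
    |MX P (Function.update x i t) - MX P (Function.update x i s)| ≤ |(t : ℝ) - s| := by
  have h1 := MX_diff P x i s t
  have h2 := MX_diff P x i t s
  have h3 : -|(t : ℝ) - s| ≤ (sn (P.T (Function.update x i s) i) * (t - s) : ℝ) := by
    have := neg_abs_le (sn (P.T (Function.update x i s) i) * (t - s) : ℝ)
    rwa [abs_mul, sn_abs, one_mul] at this
  have h4 : -|(t : ℝ) - s| ≤ (sn (P.T (Function.update x i t) i) * (s - t) : ℝ) := by
    have := neg_abs_le (sn (P.T (Function.update x i t) i) * (s - t) : ℝ)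
    rwa [abs_mul, sn_abs, one_mul, abs_sub_comm] at this
  rw [abs_le]
  constructor <;> linarith

theorem box_sum (M : ℕ) (F : ℤ → ℝ) :
    ∑ u ∈ box M, F u = ∑ k ∈ range M, (F (2 * k + 1) + F (-(2 * k + 1))) := by
  induction M with
  | zero =>
    have : box 0 = ∅ := by
      rw [← Finset.card_eq_zero, card_box]
    simp [this]
  | succ M ih =>
    have h : box (M + 1) = insert (2 * (M : ℤ) + 1) (insert (-(2 * (M : ℤ) + 1)) (box M)) := by
      ext t
      simp only [mem_insert, mem_box]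
      push_cast
      constructor
      · rintro ⟨⟨h1, h2⟩, k, hk⟩
        by_cases h3 : t = 2 * (M : ℤ) + 1
        · exact Or.inl h3
        · by_cases h4 : t = -(2 * (M : ℤ) + 1)
          · exact Or.inr (Or.inl h4)
          · exact Or.inr (Or.inr ⟨⟨by omega, by omega⟩, k, hk⟩)
      · rintro (h | h | ⟨⟨h1, h2⟩, h3⟩)
        · exact ⟨⟨by omega, by omega⟩, ⟨M, h⟩⟩
        · exact ⟨⟨by omega, by omega⟩, ⟨-M - 1, by omega⟩⟩
        · exact ⟨⟨by omega, by omega⟩, h3⟩
    rw [h, Finset.sum_insert, Finset.sum_insert, ih, Finset.sum_range_succ]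
    · ring
    · rw [mem_box]; push Not; intro h; omega
    · rw [mem_insert, mem_box]; push Not
      exact ⟨by omega, fun h => by omega⟩

/-- `|u| - MX` along a line. -/
def hh (P : Pot n A) (x : Fin n → ℤ) (i : Fin n) (u : ℤ) : ℝ :=
  |(u : ℝ)| - MX P (Function.update x i u)

/-- The indicator of `i ∈ D y` along a line. -/
def dd (P : Pot n A) (x : Fin n → ℤ) (i : Fin n) (u : ℤ) : ℝ :=
  if i ∈ P.D (Function.update x i u) then 1 else 0

theorem dd_nonneg (P : Pot n A) (x : Fin n → ℤ) (i : Fin n) (u : ℤ) : 0 ≤ dd P x i u := by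
  unfold dd; split_ifs <;> norm_num

theorem dd_pos (P : Pot n A) (x : Fin n → ℤ) (i : Fin n) (u : ℤ) (hu : 0 < u) :
    dd P x i u = if P.T (Function.update x i u) i = false then 1 else 0 := by
  unfold dd Pot.D
  simp only [mem_filter, mem_univ, true_and, Function.update_self]
  cases h : P.T (Function.update x i u) i
  · simp [sn, hu]
  · simp [sn, hu.le]

theorem dd_neg (P : Pot n A) (x : Fin n → ℤ) (i : Fin n) (u : ℤ) (hu : u < 0) :
    dd P x i u = if P.T (Function.update x i u) i = true then 1 else 0 := by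
  unfold dd Pot.D
  simp only [mem_filter, mem_univ, true_and, Function.update_self]
  cases h : P.T (Function.update x i u) i
  · simp [sn, hu.le]
  · simp [sn, hu]

theorem hh_step_pos (P : Pot n A) (x : Fin n → ℤ) (i : Fin n) (u : ℤ) (hu : 0 < u) :
    |hh P x i (u + 2) - hh P x i u| ≤ 4 * dd P x i u := by
  have h1 := MX_diff P x i u (u + 2)
  have h2 := MX_lip P x i u (u + 2)
  have hu' : (0 : ℝ) < u := by exact_mod_cast hu
  push_cast at h1 h2
  rw [show (u : ℝ) + 2 - u = 2 by ring] at h1 h2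
  rw [show |(2 : ℝ)| = 2 by norm_num, abs_le] at h2
  rw [dd_pos P x i u hu]
  unfold hh
  push_cast
  rw [abs_of_pos hu', abs_of_pos (by linarith : (0 : ℝ) < (u : ℝ) + 2)]
  cases h : P.T (Function.update x i u) i
  · simp only [if_true]
    rw [abs_le]
    constructor <;> linarith
  · rw [h] at h1
    simp only [sn, if_true, Int.cast_one] at h1
    simp only [Bool.true_eq_false, if_false, mul_zero]
    rw [abs_le]
    constructor <;> linarith

theorem hh_step_neg (P : Pot n A) (x : Fin n → ℤ) (i : Fin n) (u : ℤ) (hu : u < 0) :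
    |hh P x i (u - 2) - hh P x i u| ≤ 4 * dd P x i u := by
  have h1 := MX_diff P x i u (u - 2)
  have h2 := MX_lip P x i u (u - 2)
  have hu' : (u : ℝ) < 0 := by exact_mod_cast hu
  push_cast at h1 h2
  rw [show (u : ℝ) - 2 - u = -2 by ring] at h1 h2
  rw [show |(-2 : ℝ)| = 2 by norm_num, abs_le] at h2
  rw [dd_neg P x i u hu]
  unfold hh
  push_cast
  rw [abs_of_neg hu', abs_of_neg (by linarith : (u : ℝ) - 2 < 0)]
  cases h : P.T (Function.update x i u) i
  · rw [h] at h1
    simp only [sn, Bool.false_eq_true, if_false, Int.cast_neg, Int.cast_one] at h1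
    simp only [Bool.false_eq_true, if_false, mul_zero]
    rw [abs_le]
    constructor <;> linarith
  · simp only [if_true]
    rw [abs_le]
    constructor <;> linarith

theorem hh_tele (P : Pot n A) (x : Fin n → ℤ) (i : Fin n) (r : ℕ) :
    |hh P x i (2 * r + 1) - hh P x i (-(2 * r + 1))| ≤
      2 + 4 * ∑ k ∈ range r, (dd P x i (2 * k + 1) + dd P x i (-(2 * k + 1))) := by
  induction r with
  | zero =>
    have h2 := MX_lip P x i (-1) 1
    push_cast at h2
    rw [show (1 : ℝ) - -1 = 2 by ring, show |(2 : ℝ)| = 2 by norm_num] at h2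
    simp only [CharP.cast_eq_zero, mul_zero, zero_add, range_zero, sum_empty, add_zero]
    unfold hh
    push_cast
    rw [abs_neg]
    rw [show |(1 : ℝ)| - MX P (Function.update x i 1) - (|(1 : ℝ)| - MX P (Function.update x i (-1)))
      = -(MX P (Function.update x i 1) - MX P (Function.update x i (-1))) by ring, abs_neg]
    exact h2
  | succ r ih =>
    have h1 := hh_step_pos P x i (2 * r + 1) (by positivity)
    have h2 := hh_step_neg P x i (-(2 * r + 1)) (by omega)
    rw [Finset.sum_range_succ]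
    push_cast
    rw [show (2 * ((r : ℤ) + 1) + 1) = 2 * r + 1 + 2 by ring,
      show -(2 * (r : ℤ) + 1 + 2) = -(2 * r + 1) - 2 by ring]
    rw [abs_le] at *
    constructor <;> linarith [h1.1, h1.2, h2.1, h2.2, ih.1, ih.2]

theorem odd_pm {M : ℕ} {t : ℤ} (ht : t ∈ box M) : ∃ r : ℕ, r < M ∧
    (t = 2 * r + 1 ∨ t = -(2 * r + 1)) := by
  rw [mem_box] at ht
  obtain ⟨⟨h1, h2⟩, k, hk⟩ := ht
  rcases lt_or_ge t 0 with h | h
  · exact ⟨(-k - 1).toNat, by omega, Or.inr (by omega)⟩
  · exact ⟨k.toNat, by omega, Or.inl (by omega)⟩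

theorem hh_flip (P : Pot n A) (x : Fin n → ℤ) (i : Fin n) {M : ℕ} {t : ℤ} (ht : t ∈ box M) :
    |hh P x i t - hh P x i (-t)| ≤ 2 + 4 * ∑ u ∈ box M, dd P x i u := by
  obtain ⟨r, hr, h⟩ := odd_pm ht
  have h1 := hh_tele P x i r
  have h2 : ∑ k ∈ range r, (dd P x i (2 * k + 1) + dd P x i (-(2 * k + 1))) ≤
      ∑ u ∈ box M, dd P x i u := by
    rw [box_sum]
    refine Finset.sum_le_sum_of_subset_of_nonneg (Finset.range_subset_range.2 hr.le) ?_
    intro k _ _
    exact add_nonneg (dd_nonneg _ _ _ _) (dd_nonneg _ _ _ _)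
  rcases h with h | h
  · rw [h]; linarith
  · rw [h, neg_neg, abs_sub_comm]; linarith

/-- `η` along a line. -/
theorem eta_update (P : Pot n A) (M : ℕ) (x : Fin n → ℤ) (i : Fin n) (u : ℤ) :
    P.eta M (Function.update x i u) =
      (((∑ l, |x l| : ℤ) : ℝ) - |(x i : ℝ)| + hh P x i u) / (2 * M) := by
  have h : (∑ l, |Function.update x i u l| : ℤ) = ∑ l, |x l| - |x i| + |u| := by
    have h1 : ∀ l, |Function.update x i u l| = |x l| + (if l = i then (|u| - |x i|) else 0) := by
      intro l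
      by_cases hl : l = i
      · subst hl; simp
      · simp [hl]
    rw [Finset.sum_congr rfl (fun l _ => h1 l), Finset.sum_add_distrib]
    simp
    ring
  unfold Pot.eta hh MX
  rw [h]
  push_cast
  ring

theorem flip_eq (x : Fin n → ℤ) (i : Fin n) : flipS {i} x = Function.update x i (-(x i)) := by
  funext l
  unfold flipS
  by_cases h : l = i
  · subst h; simp
  · simp [h]

theorem eta_flip (P : Pot n A) {M : ℕ} (hM : 1 ≤ M) {x : Fin n → ℤ} (hx : x ∈ grid n M)
    (i : Fin n) :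
    |P.eta M x - P.eta M (flipS {i} x)| ≤ 1 / M + 2 / M * ∑ u ∈ box M, dd P x i u := by
  have hM0 : (0 : ℝ) < M := by exact_mod_cast hM
  have h1 := hh_flip P x i ((mem_grid.1 hx) i)
  have e1 : P.eta M x = P.eta M (Function.update x i (x i)) := by rw [Function.update_eq_self]
  rw [e1, flip_eq, eta_update, eta_update, ← sub_div, abs_div,
    abs_of_pos (by positivity : (0 : ℝ) < 2 * M)]
  rw [div_le_iff₀ (by positivity)]
  have e2 : (1 / (M : ℝ) + 2 / M * ∑ u ∈ box M, dd P x i u) * (2 * M) =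
      2 + 4 * ∑ u ∈ box M, dd P x i u := by
    field_simp; ring
  rw [e2]
  refine le_trans (le_of_eq ?_) h1
  congr 1
  ring

theorem eta_line (P : Pot n A) {M : ℕ} (hM : 1 ≤ M) (x : Fin n → ℤ)
    (i : Fin n) {u v : ℤ} (hu : u ∈ box M) (hv : v ∈ box M) :
    |P.eta M (Function.update x i u) - P.eta M (Function.update x i v)| ≤ 4 := by
  have hM0 : (0 : ℝ) < M := by exact_mod_cast hM
  rw [eta_update, eta_update, ← sub_div, abs_div,
    abs_of_pos (by positivity : (0 : ℝ) < 2 * M), div_le_iff₀ (by positivity)]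
  have h1 := MX_lip P x i v u
  have h2 := abs_abs_sub_abs_le (u : ℝ) v
  have h3 : |(u : ℝ) - v| ≤ 4 * M := by
    rw [mem_box] at hu hv
    have a1 : (u - v : ℤ) ≤ 4 * M := by omega
    have a2 : -(4 * M) ≤ (u - v : ℤ) := by omega
    rw [abs_le]
    constructor
    · have : ((-(4 * M) : ℤ) : ℝ) ≤ ((u - v : ℤ) : ℝ) := by exact_mod_cast a2
      push_cast at this
      linarith
    · have : ((u - v : ℤ) : ℝ) ≤ ((4 * M : ℤ) : ℝ) := by exact_mod_cast a1
      push_cast at this
      linarith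
  have e : ((∑ l, |x l| : ℤ) : ℝ) - |(x i : ℝ)| + hh P x i u -
      (((∑ l, |x l| : ℤ) : ℝ) - |(x i : ℝ)| + hh P x i v) =
      (|(u : ℝ)| - |(v : ℝ)|) - (MX P (Function.update x i u) - MX P (Function.update x i v)) := by
    unfold hh; ring
  rw [e]
  have h4 := abs_sub (|(u : ℝ)| - |(v : ℝ)|) (MX P (Function.update x i u) - MX P (Function.update x i v))
  linarith

/-- Indicator of `η > V` and `i ∈ D`. -/
def GG (P : Pot n A) (M : ℕ) (V : ℝ) (i : Fin n) (x : Fin n → ℤ) : ℝ :=
  if V < P.eta M x ∧ i ∈ P.D x then 1 else 0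

theorem GG_nonneg (P : Pot n A) (M : ℕ) (V : ℝ) (i : Fin n) (x : Fin n → ℤ) :
    0 ≤ GG P M V i x := by unfold GG; split_ifs <;> norm_num

theorem clip_line (P : Pot n A) {M : ℕ} (hM : 1 ≤ M) {x : Fin n → ℤ} (hx : x ∈ grid n M)
    (i : Fin n) {U : ℝ} (hU : 0 < U) :
    |clip U (P.eta M x) - clip U (P.eta M (flipS {i} x))| ≤
      1 / M + 2 / M * ∑ u ∈ box M, GG P M (U - 4) i (Function.update x i u) := by
  have hM0 : (0 : ℝ) < M := by exact_mod_cast hM
  have hxi := (mem_grid.1 hx) i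
  have hxi' : -(x i) ∈ box M := by
    rw [mem_box] at hxi ⊢
    exact ⟨⟨by omega, by omega⟩, hxi.2.neg⟩
  have e1 : P.eta M x = P.eta M (Function.update x i (x i)) := by rw [Function.update_eq_self]
  by_cases h : P.eta M x ≤ U ∧ P.eta M (flipS {i} x) ≤ U
  · rw [clip_of_le hU h.1, clip_of_le hU h.2, sub_self, abs_zero]
    have : 0 ≤ ∑ u ∈ box M, GG P M (U - 4) i (Function.update x i u) :=
      Finset.sum_nonneg (fun u _ => GG_nonneg _ _ _ _ _)
    positivity
  · have hz : ∃ v ∈ box M, U < P.eta M (Function.update x i v) := by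
      by_cases h1 : P.eta M x ≤ U
      · refine ⟨-(x i), hxi', ?_⟩
        rw [← flip_eq]
        exact not_le.1 (fun h2 => h ⟨h1, h2⟩)
      · exact ⟨x i, hxi, by rw [← e1]; exact not_le.1 h1⟩
    obtain ⟨v, hv, hlt⟩ := hz
    have h2 : ∑ u ∈ box M, GG P M (U - 4) i (Function.update x i u) = ∑ u ∈ box M, dd P x i u := by
      refine Finset.sum_congr rfl (fun u hu => ?_)
      have h3 := eta_line P hM x i hv hu
      rw [abs_le] at h3
      have h4 : U - 4 < P.eta M (Function.update x i u) := by linarith [h3.2]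
      unfold GG dd
      simp only [h4, true_and]
    rw [h2]
    exact (clip_abs _ _ _).trans (eta_flip P hM hx i)

theorem sum_clip (P : Pot n A) {M : ℕ} (hM : 1 ≤ M) {U : ℝ} (hU : 0 < U) :
    ∑ i : Fin n, ∑ x ∈ grid n M, |clip U (P.eta M x) - clip U (P.eta M (flipS {i} x))| ≤
      n / M * (2 * M) ^ n + 4 * ∑ x ∈ grid n M,
        (if U - 4 < P.eta M x then ((P.D x).card : ℝ) else 0) := by
  have hM0 : (0 : ℝ) < M := by exact_mod_cast hM
  have h1 : ∀ i : Fin n, ∑ x ∈ grid n M, |clip U (P.eta M x) - clip U (P.eta M (flipS {i} x))| ≤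
      1 / M * (2 * M) ^ n + 4 * ∑ x ∈ grid n M, GG P M (U - 4) i x := by
    intro i
    calc _ ≤ ∑ x ∈ grid n M, (1 / (M : ℝ) + 2 / M *
          ∑ u ∈ box M, GG P M (U - 4) i (Function.update x i u)) :=
        Finset.sum_le_sum (fun x hx => clip_line P hM hx i hU)
      _ = 1 / M * (2 * M) ^ n + 2 / M * ∑ x ∈ grid n M, ∑ u ∈ box M,
          GG P M (U - 4) i (Function.update x i u) := by
        rw [Finset.sum_add_distrib, ← Finset.mul_sum, Finset.sum_const, card_grid]
        push_cast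
        ring
      _ = _ := by
        rw [line_sum]
        field_simp
        ring
  refine (Finset.sum_le_sum (fun i _ => h1 i)).trans (le_of_eq ?_)
  rw [Finset.sum_add_distrib, ← Finset.mul_sum, ← Finset.mul_sum, Finset.sum_comm]
  congr 1
  · simp only [Finset.sum_const, Finset.card_univ, Fintype.card_fin, nsmul_eq_mul]
    ring
  · congr 1
    refine Finset.sum_congr rfl (fun x _ => ?_)
    unfold GG
    by_cases h : U - 4 < P.eta M x
    · simp only [h, true_and, if_true]
      rw [Finset.sum_ite_mem, Finset.univ_inter, Finset.sum_const, nsmul_eq_mul, mul_one]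
    · simp [h]

theorem cost_nonneg (P : Pot n A) (M : ℕ) (x : Fin n → ℤ) : 0 ≤ P.cost M x := by
  unfold Pot.cost
  exact div_nonneg (Finset.sum_nonneg (fun l _ => abs_nonneg _)) (by positivity)

theorem cost_eq (P : Pot n A) (M : ℕ) (x : Fin n → ℤ) :
    P.cost M x = P.eta M x + P.zeta M (P.T x) := by
  have h : (∑ l, |x l| : ℤ) - dot (P.T x) x = 2 * ∑ l ∈ P.D x, |x l| := by
    unfold dot Pot.D
    rw [← Finset.sum_sub_distrib, Finset.mul_sum, Finset.sum_filter]
    refine Finset.sum_congr rfl (fun l _ => ?_)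
    cases h : P.T x l
    · simp only [sn, Bool.false_eq_true, if_false]
      split_ifs with h2
      · rw [abs_of_pos (by linarith)]; ring
      · rw [abs_of_nonpos (by linarith)]; ring
    · simp only [sn, if_true]
      split_ifs with h2
      · rw [abs_of_neg (by linarith)]; ring
      · rw [abs_of_nonneg (by linarith)]; ring
  have h' : ((∑ l, |x l| : ℤ) : ℝ) - dot (P.T x) x = 2 * ∑ l ∈ P.D x, (|x l| : ℝ) := by
    have : (((∑ l, |x l| : ℤ) - dot (P.T x) x : ℤ) : ℝ) = ((2 * ∑ l ∈ P.D x, |x l| : ℤ) : ℝ) := by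
      rw [h]
    push_cast at this ⊢
    exact this
  unfold Pot.cost Pot.eta Pot.zeta
  have e : (((∑ l, |x l| : ℤ) : ℝ) - ((dot (P.T x) x : ℝ) - P.c (P.T x))) / (2 * M) +
      -P.c (P.T x) / (2 * M) = (((∑ l, |x l| : ℤ) : ℝ) - dot (P.T x) x) / (2 * M) := by ring
  rw [e, h', mul_div_mul_left _ _ (two_ne_zero)]

/-- The number of small coordinates. -/
def ZZ (M : ℕ) (τ : ℝ) (x : Fin n → ℤ) : ℕ := (univ.filter (fun l => (|x l| : ℝ) ≤ 2 * τ * M)).card

theorem card_D_le (P : Pot n A) {M : ℕ} (hM : 1 ≤ M) {τ : ℝ} (hτ : 0 < τ) (x : Fin n → ℤ) :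
    ((P.D x).card : ℝ) ≤ ZZ M τ x + P.cost M x / (2 * τ) := by
  have hM0 : (0 : ℝ) < M := by exact_mod_cast hM
  have h1 : (P.D x).card ≤ ZZ M τ x + ((P.D x).filter (fun l => ¬ (|x l| : ℝ) ≤ 2 * τ * M)).card := by
    rw [← Finset.card_filter_add_card_filter_not (s := P.D x) (fun l => (|x l| : ℝ) ≤ 2 * τ * M)]
    unfold ZZ
    gcongr
    exact Finset.subset_univ _
  have h2 : (((P.D x).filter (fun l => ¬ (|x l| : ℝ) ≤ 2 * τ * M)).card : ℝ) * (2 * τ * M) ≤
      ∑ l ∈ P.D x, (|x l| : ℝ) := by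
    calc _ = ∑ l ∈ (P.D x).filter (fun l => ¬ (|x l| : ℝ) ≤ 2 * τ * M), (2 * τ * M) := by
          rw [Finset.sum_const, nsmul_eq_mul]
      _ ≤ ∑ l ∈ (P.D x).filter (fun l => ¬ (|x l| : ℝ) ≤ 2 * τ * M), (|x l| : ℝ) :=
          Finset.sum_le_sum (fun l hl => (not_le.1 (mem_filter.1 hl).2).le)
      _ ≤ _ := Finset.sum_le_sum_of_subset_of_nonneg (Finset.filter_subset _ _)
          (fun l _ _ => abs_nonneg _)
  have h3 : (((P.D x).filter (fun l => ¬ (|x l| : ℝ) ≤ 2 * τ * M)).card : ℝ) ≤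
      P.cost M x / (2 * τ) := by
    unfold Pot.cost
    rw [le_div_iff₀ (by positivity), le_div_iff₀ hM0]
    linarith
  have h1' : ((P.D x).card : ℝ) ≤ ZZ M τ x +
      (((P.D x).filter (fun l => ¬ (|x l| : ℝ) ≤ 2 * τ * M)).card : ℝ) := by exact_mod_cast h1
  linarith

/-- Second moment of the number of small coordinates. -/
theorem ZZ_sq {M : ℕ} (hM : 1 ≤ M) (hn : 1 ≤ n) (hnM : n ≤ M) :
    ∑ x ∈ grid n M, ((ZZ M (1 / Real.sqrt n) x : ℕ) : ℝ) ^ 2 ≤ 29 * n * (2 * M) ^ n := by
  have hM0 : (0 : ℝ) < M := by exact_mod_cast hM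
  have hn0 : (1 : ℝ) ≤ n := by exact_mod_cast hn
  set s := Real.sqrt n with hs
  have hs1 : 1 ≤ s := by rw [hs, Real.one_le_sqrt]; exact hn0
  have hss : s * s = n := Real.mul_self_sqrt (by positivity)
  have hsn : s ≤ n := by nlinarith
  have hsM : s ≤ M := hsn.trans (by exact_mod_cast hnM)
  have h1 := t_SMALL n M hM (1 / s) (by gcongr)
  have h2 : Real.exp (2 * (1 / s) * n) = Real.exp (2 * s) := by
    congr 1
    rw [← hss]
    field_simp
  rw [h2] at h1
  -- pointwise
  have hlog : (0.69 : ℝ) < Real.log 2 := by have := Real.log_two_gt_d9; linarith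
  have hpt : ∀ k : ℕ, (k : ℝ) ^ 2 ≤ 9 * (Real.exp (-(2 * s)) * 2 ^ k) + 20 * n := by
    intro k
    have e1 : Real.exp (-(2 * s)) * 2 ^ k = Real.exp (k * Real.log 2 - 2 * s) := by
      rw [sub_eq_add_neg, Real.exp_add, mul_comm, mul_comm (k : ℝ), Real.exp_mul,
        Real.exp_log (by norm_num), Real.rpow_natCast]
    rw [e1]
    set w := k * Real.log 2 - 2 * s with hw
    have hk : (k : ℝ) * 0.69 ≤ w + 2 * s := by
      have : (k : ℝ) * 0.69 ≤ k * Real.log 2 := by gcongr
      linarith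
    have hk0 : (0 : ℝ) ≤ k := by positivity
    rcases le_or_gt w 0 with h | h
    · have : (k : ℝ) * 0.69 ≤ 2 * s := by linarith
      have h3 : ((k : ℝ) * 0.69) ^ 2 ≤ (2 * s) ^ 2 := by gcongr
      have h4 := Real.exp_pos w
      nlinarith
    · have h3 : ((k : ℝ) * 0.69) ^ 2 ≤ (w + 2 * s) ^ 2 := by gcongr
      have h4 : w ^ 2 ≤ 2 * Real.exp w := by
        have := Real.quadratic_le_exp_of_nonneg h.le
        nlinarith
      have h5 : (w + 2 * s) ^ 2 ≤ 2 * w ^ 2 + 8 * (s * s) := by nlinarith [sq_nonneg (w - 2 * s)]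
      rw [hss] at h5
      nlinarith
  calc ∑ x ∈ grid n M, ((ZZ M (1 / s) x : ℕ) : ℝ) ^ 2
      ≤ ∑ x ∈ grid n M, (9 * (Real.exp (-(2 * s)) * 2 ^ (ZZ M (1 / s) x)) + 20 * n) :=
        Finset.sum_le_sum (fun x _ => hpt _)
    _ = 9 * Real.exp (-(2 * s)) * ∑ x ∈ grid n M, (2 : ℝ) ^ (ZZ M (1 / s) x) +
        20 * n * (2 * M) ^ n := by
        rw [Finset.sum_add_distrib, Finset.sum_const, card_grid, Finset.mul_sum]
        push_cast
        congr 1
        · refine Finset.sum_congr rfl (fun x _ => by ring)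
        · ring
    _ ≤ 9 * Real.exp (-(2 * s)) * (Real.exp (2 * s) * (2 * M) ^ n) + 20 * n * (2 * M) ^ n := by
        gcongr
        exact h1
    _ = 9 * (2 * M) ^ n + 20 * n * (2 * M) ^ n := by
        have : Real.exp (-(2 * s)) * Real.exp (2 * s) = 1 := by rw [← Real.exp_add]; simp
        linear_combination (9 * (2 * (M : ℝ)) ^ n) * this
    _ ≤ _ := by
        have : (0 : ℝ) < (2 * (M : ℝ)) ^ n := by positivity
        nlinarith

/-- The pointwise bound. -/
theorem pointwise {d z c e ζ V s : ℝ} (hs : 0 < s) (hz : 0 ≤ z) (hd : d ≤ z + s / 2 * c)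
    (hc : c = e + ζ) (hc0 : 0 ≤ c) (hV : V < e) :
    d ≤ 1 / 2 * (z ^ 2 * Real.exp (-(V / 8)) / s + s * Real.exp (-(V / 8)) * Real.exp (e / 4)) +
      4 * s * Real.exp (-(V / 16)) * (Real.exp (e / 4) + 1 + Real.exp (ζ / 4)) := by
  have h1 : z ≤ 1 / 2 * (z ^ 2 * Real.exp (-(V / 8)) / s +
      s * Real.exp (-(V / 8)) * Real.exp (e / 4)) := by
    set w := Real.exp (-(V / 8)) with hw
    have hw0 : 0 < w := Real.exp_pos _
    have h2 : s * Real.exp (V / 8) ≤ s * w * Real.exp (e / 4) := by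
      rw [mul_assoc, hw, ← Real.exp_add]
      gcongr
      linarith
    have h3 : w * Real.exp (V / 8) = 1 := by rw [hw, ← Real.exp_add]; simp
    have h4 : 2 * z ≤ z ^ 2 * w / s + s * Real.exp (V / 8) := by
      have h5 : z ^ 2 * w / s + s * Real.exp (V / 8) - 2 * z =
          w / s * (z - s * Real.exp (V / 8)) ^ 2 := by
        have : w / s * (z - s * Real.exp (V / 8)) ^ 2 = z ^ 2 * w / s -
            2 * z * (w * Real.exp (V / 8)) + s * (w * Real.exp (V / 8)) * Real.exp (V / 8) := by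
          field_simp; ring
        rw [this, h3]; ring
      have h6 : 0 ≤ w / s * (z - s * Real.exp (V / 8)) ^ 2 := by positivity
      linarith
    linarith
  have h7 : s / 2 * c ≤ 4 * s * Real.exp (-(V / 16)) * (Real.exp (e / 4) + 1 + Real.exp (ζ / 4)) := by
    have h8 : c ≤ 16 * Real.exp (c / 16) := by
      have := Real.add_one_le_exp (c / 16)
      linarith
    have h9 : Real.exp (c / 16) ≤ Real.exp (-(V / 16)) * (Real.exp (e / 8) * Real.exp (ζ / 16)) := by
      rw [← Real.exp_add, ← Real.exp_add]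
      gcongr
      rw [hc]
      linarith
    have h10 : Real.exp (e / 8) * Real.exp (ζ / 16) ≤
        (Real.exp (e / 4) + Real.exp (ζ / 8)) / 2 := by
      have e1 : Real.exp (e / 4) = Real.exp (e / 8) ^ 2 := by rw [← Real.exp_nat_mul]; congr 1; push_cast; ring
      have e2 : Real.exp (ζ / 8) = Real.exp (ζ / 16) ^ 2 := by
        rw [← Real.exp_nat_mul]; congr 1; push_cast; ring
      rw [e1, e2]
      nlinarith [sq_nonneg (Real.exp (e / 8) - Real.exp (ζ / 16))]
    have h11 : Real.exp (ζ / 8) ≤ 1 + Real.exp (ζ / 4) := by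
      rcases le_or_gt ζ 0 with h | h
      · have : Real.exp (ζ / 8) ≤ 1 := Real.exp_le_one_iff.2 (by linarith)
        have := Real.exp_pos (ζ / 4)
        linarith
      · have : Real.exp (ζ / 8) ≤ Real.exp (ζ / 4) := by gcongr; linarith
        linarith
    have h12 : 0 < Real.exp (-(V / 16)) := Real.exp_pos _
    calc s / 2 * c ≤ s / 2 * (16 * (Real.exp (-(V / 16)) *
          ((Real.exp (e / 4) + (1 + Real.exp (ζ / 4))) / 2))) := by
          gcongr
          refine h8.trans ?_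
          gcongr
          refine h9.trans ?_
          gcongr
          linarith
      _ = _ := by ring
  linarith

theorem t_ETA (hT : S_TAIL) : S_ETA := by
  obtain ⟨C, hC1, hT⟩ := hT
  refine ⟨4 * (37 + 17 * C), by linarith, ?_⟩
  intro n hn A hA ε hε
  refine ⟨⌈C * n⌉₊ + ⌈(n : ℝ) / ε⌉₊ + n + 1, ?_⟩
  intro M hM P hB U hU
  have hM1 : 1 ≤ M := by omega
  have hnM : n ≤ M := by omega
  have hM0 : (0 : ℝ) < M := by exact_mod_cast hM1
  have hn1 : 1 ≤ n := by omega
  have hn0 : (1 : ℝ) ≤ n := by exact_mod_cast hn1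
  have hCM : C * n ≤ M := by
    have h1 : C * n ≤ ⌈C * n⌉₊ := Nat.le_ceil _
    have h2 : ((⌈C * n⌉₊ : ℕ) : ℝ) ≤ M := by exact_mod_cast (by omega : ⌈C * n⌉₊ ≤ M)
    linarith
  have hεM : (n : ℝ) / M ≤ ε := by
    have h1 : (n : ℝ) / ε ≤ ⌈(n : ℝ) / ε⌉₊ := Nat.le_ceil _
    have h2 : ((⌈(n : ℝ) / ε⌉₊ : ℕ) : ℝ) ≤ M := by exact_mod_cast (by omega : ⌈(n : ℝ) / ε⌉₊ ≤ M)
    rw [div_le_iff₀ hM0]
    have h3 : (n : ℝ) / ε ≤ M := h1.trans h2
    rw [div_le_iff₀ hε] at h3
    linarith
  obtain ⟨hE, hZ⟩ := hT n hn1 A hA M hCM P hB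
  have hmain := sum_clip P hM1 (by linarith : (0 : ℝ) < U)
  set s := Real.sqrt n with hs
  have hs1 : 1 ≤ s := by rw [hs, Real.one_le_sqrt]; exact hn0
  have hs0 : 0 < s := by linarith
  have hss : s * s = n := Real.mul_self_sqrt (by positivity)
  have hZZ := ZZ_sq (M := M) hM1 hn1 hnM
  rw [← hs] at hZZ
  set V := U - 4 with hV
  set N : ℝ := (2 * (M : ℝ)) ^ n with hN
  have hN0 : 0 < N := by positivity
  have hpt : ∀ x ∈ grid n M, (if V < P.eta M x then ((P.D x).card : ℝ) else 0) ≤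
      1 / 2 * ((ZZ M (1 / s) x : ℝ) ^ 2 * Real.exp (-(V / 8)) / s +
        s * Real.exp (-(V / 8)) * Real.exp (P.eta M x / 4)) +
      4 * s * Real.exp (-(V / 16)) *
        (Real.exp (P.eta M x / 4) + 1 + Real.exp (P.zeta M (P.T x) / 4)) := by
    intro x _
    split_ifs with h
    · refine pointwise hs0 (by positivity) ?_ (cost_eq P M x) (cost_nonneg P M x) h
      have h1 := card_D_le P hM1 (τ := 1 / s) (by positivity) x
      have e1 : P.cost M x / (2 * (1 / s)) = s / 2 * P.cost M x := by field_simp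
      rw [e1] at h1
      exact h1
    · positivity
  have hsum : ∑ x ∈ grid n M, (if V < P.eta M x then ((P.D x).card : ℝ) else 0) ≤
      (37 + 17 * C) * s * Real.exp (-U / 16) * N := by
    refine (Finset.sum_le_sum hpt).trans ?_
    have e1 : ∑ x ∈ grid n M, (1 / 2 * ((ZZ M (1 / s) x : ℝ) ^ 2 * Real.exp (-(V / 8)) / s +
        s * Real.exp (-(V / 8)) * Real.exp (P.eta M x / 4)) +
      4 * s * Real.exp (-(V / 16)) *
        (Real.exp (P.eta M x / 4) + 1 + Real.exp (P.zeta M (P.T x) / 4))) =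
      1 / 2 * (Real.exp (-(V / 8)) / s * ∑ x ∈ grid n M, (ZZ M (1 / s) x : ℝ) ^ 2 +
        s * Real.exp (-(V / 8)) * ∑ x ∈ grid n M, Real.exp (P.eta M x / 4)) +
      4 * s * Real.exp (-(V / 16)) * (∑ x ∈ grid n M, Real.exp (P.eta M x / 4) + N +
        ∑ x ∈ grid n M, Real.exp (P.zeta M (P.T x) / 4)) := by
      have hcard : ∑ x ∈ grid n M, (1 : ℝ) = N := by
        rw [Finset.sum_const, card_grid, hN]; push_cast; ring
      rw [← hcard]
      simp only [Finset.mul_sum, ← Finset.sum_add_distrib]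
      refine Finset.sum_congr rfl (fun x _ => by ring)
    rw [e1]
    have hw8 : Real.exp (-(V / 8)) ≤ 2 * Real.exp (-U / 16) := by
      have h1 : Real.exp (-(V / 8)) = Real.exp (1 / 2) * Real.exp (-U / 8) := by
        rw [← Real.exp_add]; congr 1; rw [hV]; ring
      have h2 : Real.exp (1 / 2) ≤ 2 := by
        have h3 := Real.exp_one_lt_d9
        have h4 : Real.exp (1 / 2) ^ 2 = Real.exp 1 := by
          rw [← Real.exp_nat_mul]; congr 1; norm_num
        nlinarith [Real.exp_pos (1 / 2)]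
      have h5 : Real.exp (-U / 8) ≤ Real.exp (-U / 16) := by gcongr 1; linarith
      rw [h1]
      gcongr
    have hw16 : Real.exp (-(V / 16)) ≤ 2 * Real.exp (-U / 16) := by
      have h1 : Real.exp (-(V / 16)) = Real.exp (1 / 4) * Real.exp (-U / 16) := by
        rw [← Real.exp_add]; congr 1; rw [hV]; ring
      have h2 : Real.exp (1 / 4) ≤ 2 := by
        have h3 : Real.exp (1 / 4) ≤ Real.exp (1 / 2) := by gcongr; norm_num
        have h4 : Real.exp (1 / 2) ≤ 2 := by
          have h3 := Real.exp_one_lt_d9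
          have h4 : Real.exp (1 / 2) ^ 2 = Real.exp 1 := by
            rw [← Real.exp_nat_mul]; congr 1; norm_num
          nlinarith [Real.exp_pos (1 / 2)]
        linarith
      rw [h1]
      gcongr
    have hx0 : 0 < Real.exp (-U / 16) := Real.exp_pos _
    have hw0 : 0 < Real.exp (-(V / 8)) := Real.exp_pos _
    have a1 : Real.exp (-(V / 8)) / s * ∑ x ∈ grid n M, (ZZ M (1 / s) x : ℝ) ^ 2 ≤
        2 * Real.exp (-U / 16) / s * (29 * n * N) := by gcongr
    have a2 : 2 * Real.exp (-U / 16) / s * (29 * n * N) = 58 * s * Real.exp (-U / 16) * N := by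
      rw [← hss]; field_simp; ring
    have a3 : s * Real.exp (-(V / 8)) * ∑ x ∈ grid n M, Real.exp (P.eta M x / 4) ≤
        s * (2 * Real.exp (-U / 16)) * (C * N) := by gcongr
    have a4 : 4 * s * Real.exp (-(V / 16)) * (∑ x ∈ grid n M, Real.exp (P.eta M x / 4) + N +
        ∑ x ∈ grid n M, Real.exp (P.zeta M (P.T x) / 4)) ≤
        4 * s * (2 * Real.exp (-U / 16)) * (C * N + N + C * N) := by gcongr
    rw [a2] at a1
    nlinarith
  calc _ ≤ n / M * N + 4 * ((37 + 17 * C) * s * Real.exp (-U / 16) * N) := by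
        refine hmain.trans ?_
        gcongr
    _ ≤ ε * N + 4 * ((37 + 17 * C) * s * Real.exp (-U / 16) * N) := by gcongr
    _ = _ := by ring

end Pool.Agent.K1H90.ST
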