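import Pool.Agent.K1H85.ST.Line

/-! # `S_THR` and `S_SMALL` (pieces of the proof of frozen statement S09154) -/

set_option autoImplicit false

noncomputable section

namespace Pool.Agent.K1H90.ST

open Pool.Agent.K1H64.ST Pool.Agent.K1H85.ST
open Finset hiding box
open MeasureTheory

theorem clip_mono (U : ℝ) {a b : ℝ} (h : a ≤ b) : clip U a ≤ clip U b := by
  unfold clip
  gcongr

theorem clip_abs (U a b : ℝ) : |clip U a - clip U b| ≤ |a - b| := by
  unfold clip
  calc |min (max a U) (2 * U) - min (max b U) (2 * U)| ≤ |max a U - max b U| := by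
        have := abs_min_sub_min_le_max (max a U) (2 * U) (max b U) (2 * U)
        simpa using this
    _ ≤ |a - b| := by
        have := abs_max_sub_max_le_max a U b U
        simpa using this

theorem clip_of_le {U a : ℝ} (hU : 0 < U) (h : a ≤ U) : clip U a = U := by
  unfold clip
  rw [max_eq_right h, min_eq_left (by linarith)]

theorem straddle {U f g : ℝ} (hU : 0 < U) :
    (volume (Set.Icc U (2 * U) ∩ {u | ¬ (u ≤ f ↔ u ≤ g)})).toReal ≤ |clip U f - clip U g| := by
  wlog hfg : f ≤ g generalizing f g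
  · have h := this (f := g) (g := f) (le_of_not_ge hfg)
    rw [abs_sub_comm]
    have e : {u : ℝ | ¬ (u ≤ f ↔ u ≤ g)} = {u : ℝ | ¬ (u ≤ g ↔ u ≤ f)} := by
      ext u
      simp only [Set.mem_ofPred_eq]
      tauto
    rw [e]
    exact h
  have hsub : Set.Icc U (2 * U) ∩ {u | ¬ (u ≤ f ↔ u ≤ g)} ⊆ Set.Icc (clip U f) (clip U g) := by
    rintro u ⟨⟨h1, h2⟩, h3⟩
    simp only [Set.mem_ofPred_eq] at h3
    have h4 : f < u ∧ u ≤ g := by
      by_contra h
      apply h3
      constructor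
      · intro h5; exact h5.trans hfg
      · intro h5
        by_contra h6
        exact h ⟨not_le.1 h6, h5⟩
    constructor
    · unfold clip
      exact (min_le_left _ _).trans (max_le h4.1.le h1)
    · unfold clip
      exact le_min (h4.2.trans (le_max_left _ _)) h2
  have h5 : (volume (Set.Icc U (2 * U) ∩ {u | ¬ (u ≤ f ↔ u ≤ g)})).toReal ≤
      (volume (Set.Icc (clip U f) (clip U g))).toReal := by
    refine ENNReal.toReal_mono ?_ (measure_mono hsub)
    rw [Real.volume_Icc]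
    exact ENNReal.ofReal_ne_top
  refine h5.trans ?_
  rw [Real.volume_Icc, ENNReal.toReal_ofReal (sub_nonneg.2 (clip_mono U hfg)), abs_sub_comm]
  exact le_abs_self _

theorem meas_straddle (f g : ℝ) : MeasurableSet {u : ℝ | ¬ (u ≤ f ↔ u ≤ g)} := by
  have : {u : ℝ | ¬ (u ≤ f ↔ u ≤ g)} =
      ((Set.Iic f ∩ (Set.Iic g)ᶜ) ∪ ((Set.Iic f)ᶜ ∩ Set.Iic g)) := by
    ext u
    simp only [Set.mem_ofPred_eq, Set.mem_union, Set.mem_inter_iff, Set.mem_Iic, Set.mem_compl_iff]
    tauto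
  rw [this]
  measurability

theorem t_THR : S_THR := by
  intro κ I f g U hU
  classical
  set s : Set ℝ := Set.Icc U (2 * U) with hs
  set F : ℝ → ℝ := fun u => ∑ k ∈ I, Set.indicator {u : ℝ | ¬ (u ≤ f k ↔ u ≤ g k)} (fun _ => (1 : ℝ)) u
    with hF
  have hvol : volume s = ENNReal.ofReal U := by rw [hs, Real.volume_Icc]; congr 1; ring
  have hs0 : volume s ≠ 0 := by rw [hvol]; simpa using hU
  have hst : volume s ≠ ⊤ := by rw [hvol]; exact ENNReal.ofReal_ne_top
  have hint : ∀ k ∈ I, IntegrableOn (Set.indicator {u : ℝ | ¬ (u ≤ f k ↔ u ≤ g k)}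
      (fun _ => (1 : ℝ))) s volume := by
    intro k _
    refine IntegrableOn.indicator ?_ (meas_straddle _ _)
    exact integrableOn_const hst
  have hFi : IntegrableOn F s volume := by
    rw [hF]
    exact integrable_finsetSum _ hint
  obtain ⟨u, hu, hle⟩ := exists_le_setAverage hs0 hst hFi
  refine ⟨u, hu.1, hu.2, ?_⟩
  have hcount : F u = ((I.filter (fun k => ¬ (u ≤ f k ↔ u ≤ g k))).card : ℝ) := by
    rw [hF, Finset.card_filter]
    push_cast
    refine Finset.sum_congr rfl (fun k _ => ?_)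
    by_cases h : (u ≤ f k ↔ u ≤ g k)
    · simp [Set.indicator, h]
    · simp [Set.indicator, h]
  have hav : ⨍ a in s, F a ∂volume = U⁻¹ * ∫ a in s, F a := by
    rw [setAverage_eq, smul_eq_mul]
    congr 2
    rw [Measure.real, hvol, ENNReal.toReal_ofReal hU.le]
  have hI : ∫ a in s, F a ≤ ∑ k ∈ I, |clip U (f k) - clip U (g k)| := by
    rw [hF, integral_finsetSum _ hint]
    refine Finset.sum_le_sum (fun k _ => ?_)
    rw [integral_indicator (meas_straddle _ _), setIntegral_const, smul_eq_mul, mul_one,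
      Measure.real, Measure.restrict_apply' (by rw [hs]; exact measurableSet_Icc), Set.inter_comm]
    exact straddle hU
  have : U * F u ≤ ∫ a in s, F a := by
    rw [hav] at hle
    calc U * F u ≤ U * (U⁻¹ * ∫ a in s, F a) := by gcongr
      _ = ∫ a in s, F a := by field_simp
  rw [← hcount]
  exact this.trans hI

/-! ## `S_SMALL` -/

theorem card_small {M : ℕ} (R : ℝ) (hR : 0 ≤ R) :
    (((box M).filter (fun t : ℤ => |(t : ℝ)| ≤ R)).card : ℝ) ≤ R + 1 := by
  have hsub : (box M).filter (fun t : ℤ => |(t : ℝ)| ≤ R) ⊆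
      (Finset.Icc ⌈-(R + 1) / 2⌉ ⌊(R - 1) / 2⌋).image (fun k : ℤ => 2 * k + 1) := by
    intro t ht
    rw [mem_filter, mem_box] at ht
    obtain ⟨⟨_, k, hk⟩, h2⟩ := ht
    rw [mem_image]
    refine ⟨k, ?_, hk.symm⟩
    rw [abs_le, hk] at h2
    push_cast at h2
    rw [Finset.mem_Icc, Int.ceil_le, Int.le_floor]
    constructor <;> linarith
  have h1 : (((box M).filter (fun t : ℤ => |(t : ℝ)| ≤ R)).card : ℝ) ≤
      ((Finset.Icc ⌈-(R + 1) / 2⌉ ⌊(R - 1) / 2⌋).card : ℝ) := by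
    exact_mod_cast (Finset.card_le_card hsub).trans Finset.card_image_le
  refine h1.trans ?_
  rw [Int.card_Icc]
  have h2 := Int.floor_le ((R - 1) / 2)
  have h3 := Int.le_ceil (-(R + 1) / 2)
  rcases le_or_gt 0 (⌊(R - 1) / 2⌋ + 1 - ⌈-(R + 1) / 2⌉) with h | h
  · have h4 : (((⌊(R - 1) / 2⌋ + 1 - ⌈-(R + 1) / 2⌉).toNat : ℤ) : ℝ) =
        ((⌊(R - 1) / 2⌋ + 1 - ⌈-(R + 1) / 2⌉ : ℤ) : ℝ) := by
      rw [Int.toNat_of_nonneg h]
    rw [Int.cast_natCast] at h4
    rw [h4]
    push_cast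
    linarith
  · rw [Int.toNat_of_nonpos h.le]
    push_cast
    linarith

theorem t_SMALL : S_SMALL := by
  intro n M hM τ hτ
  have hM0 : (0 : ℝ) < M := by exact_mod_cast hM
  have hτM : 1 ≤ τ * M := by
    rw [div_le_iff₀ hM0] at hτ
    exact hτ
  have hτ0 : 0 < τ := lt_of_lt_of_le (by positivity) hτ
  have h1 : ∀ x : Fin n → ℤ, (2 : ℝ) ^ ((univ.filter (fun l => (|x l| : ℝ) ≤ 2 * τ * M)).card) =
      ∏ l, (if (|x l| : ℝ) ≤ 2 * τ * M then (2 : ℝ) else 1) := by
    intro x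
    rw [Finset.prod_ite, Finset.prod_const, Finset.prod_const_one, mul_one]
  simp only [h1]
  have h2 : ∑ x ∈ grid n M, ∏ l, (if (|x l| : ℝ) ≤ 2 * τ * M then (2 : ℝ) else 1) =
      ∏ _l : Fin n, ∑ t ∈ box M, (if (|t| : ℝ) ≤ 2 * τ * M then (2 : ℝ) else 1) := by
    rw [grid, Finset.prod_univ_sum]
  rw [h2, Finset.prod_const, Finset.card_univ, Fintype.card_fin]
  have h3 : ∑ t ∈ box M, (if (|t| : ℝ) ≤ 2 * τ * M then (2 : ℝ) else 1) ≤
      2 * M * Real.exp (2 * τ) := by
    have h4 : ∑ t ∈ box M, (if (|t| : ℝ) ≤ 2 * τ * M then (2 : ℝ) else 1) =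
        ((box M).card : ℝ) + (((box M).filter (fun t : ℤ => |(t : ℝ)| ≤ 2 * τ * M)).card : ℝ) := by
      rw [Finset.card_eq_sum_ones, Finset.card_filter]
      push_cast
      rw [← Finset.sum_add_distrib]
      refine Finset.sum_congr rfl (fun t _ => ?_)
      split_ifs <;> norm_num
    rw [h4, card_box]
    have h5 := card_small (M := M) (2 * τ * M) (by positivity)
    have h6 := Real.add_one_le_exp (2 * τ)
    push_cast
    nlinarith
  have h7 : 0 ≤ ∑ t ∈ box M, (if (|t| : ℝ) ≤ 2 * τ * M then (2 : ℝ) else 1) :=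
    Finset.sum_nonneg (fun t _ => by split_ifs <;> norm_num)
  calc (∑ t ∈ box M, (if (|t| : ℝ) ≤ 2 * τ * M then (2 : ℝ) else 1)) ^ n
      ≤ (2 * M * Real.exp (2 * τ)) ^ n := by gcongr
    _ = Real.exp (2 * τ * n) * (2 * M) ^ n := by
        rw [mul_pow, ← Real.exp_nat_mul, mul_comm]
        congr 2
        ring

end Pool.Agent.K1H90.ST
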